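import Pool.Agent.R41.Cyc

/-!
# MP_df7c80_co: `sat(n, C_{3ℤ₊+1}) < ⌈5n/4 - 3/2⌉` for `n = 4k + 3`, `k ≥ 3`

The graph: two vertices `A`, `B`, joined by one path `A C B` of length two and by `k` paths
`A (a j) (b j) B` of length three; every `a j` and every `b j` has one pendant neighbour.
-/

set_option autoImplicit false

namespace Pool.Agent.Results.MP_df7c80_co.Counterexample

open SimpleGraph Pool.Agent.R41

/-- `G` has no cycle whose length lies in `I`, i.e. no subgraph isomorphic to a member of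
`C_I = {C_m : m ∈ I}` (used for `I ⊆ [3, ∞)`; `cycleGraph m` is the cycle `C_m`). -/
def IsFree (I : Set ℕ) {V : Type} (G : SimpleGraph V) : Prop :=
  ∀ m ∈ I, ¬ (cycleGraph m).IsContained G

/-- `G` is `C_I`-saturated: it has no subgraph isomorphic to a member of `C_I`, but adding any
missing edge creates such a subgraph. -/
def IsSaturated (I : Set ℕ) {V : Type} (G : SimpleGraph V) : Prop :=
  IsFree I G ∧ ∀ x y : V, x ≠ y → ¬ G.Adj x y → ¬ IsFree I (G ⊔ edge x y)

/-- The saturation number `sat(n, C_I)`: the minimum number of edges of a `C_I`-saturated graph on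
`n` vertices. -/
noncomputable def sat (n : ℕ) (I : Set ℕ) : ℕ :=
  sInf {e : ℕ | ∃ (V : Type) (_ : Fintype V) (G : SimpleGraph V),
    Fintype.card V = n ∧ IsSaturated I G ∧ G.edgeSet.ncard = e}

/-- The set `3ℤ₊ + 1 = {4, 7, 10, …}`. -/
def I1 : Set ℕ := {m | ∃ i : ℕ, 1 ≤ i ∧ m = 3 * i + 1}

/-- The vertices of the example. -/
inductive W (k : ℕ) : Type
  | A : W k
  | B : W k
  | C : W k
  | a : Fin k → W k
  | b : Fin k → W k
  | la : Fin k → W k
  | lb : Fin k → W k
  deriving DecidableEq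

/-- The edges of the example. -/
inductive E {k : ℕ} : W k → W k → Prop
  | AC : E W.A W.C
  | BC : E W.B W.C
  | Aa (j : Fin k) : E W.A (W.a j)
  | Bb (j : Fin k) : E W.B (W.b j)
  | ab (j : Fin k) : E (W.a j) (W.b j)
  | al (j : Fin k) : E (W.a j) (W.la j)
  | bl (j : Fin k) : E (W.b j) (W.lb j)

/-- The example. -/
def G (k : ℕ) : SimpleGraph (W k) where
  Adj u v := E u v ∨ E v u
  symm := ⟨fun _ _ h => h.symm⟩
  loopless := ⟨fun u h => by rcases h with h | h <;> cases h⟩

/-- The vertex set as a sum type. -/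
def WEquiv (k : ℕ) : W k ≃ Fin 3 ⊕ (Fin k ⊕ Fin k) ⊕ (Fin k ⊕ Fin k) where
  toFun
    | .A => .inl 0
    | .B => .inl 1
    | .C => .inl 2
    | .a j => .inr (.inl (.inl j))
    | .b j => .inr (.inl (.inr j))
    | .la j => .inr (.inr (.inl j))
    | .lb j => .inr (.inr (.inr j))
  invFun
    | .inl 0 => .A
    | .inl 1 => .B
    | .inl 2 => .C
    | .inr (.inl (.inl j)) => .a j
    | .inr (.inl (.inr j)) => .b j
    | .inr (.inr (.inl j)) => .la j
    | .inr (.inr (.inr j)) => .lb j
  left_inv := by rintro (_ | _ | _ | _ | _ | _ | _) <;> rfl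
  right_inv := by
    rintro (i | (j | j) | (j | j))
    · fin_cases i <;> rfl
    all_goals rfl

instance (k : ℕ) : Fintype (W k) := Fintype.ofEquiv _ (WEquiv k).symm

lemma card_W (k : ℕ) : Fintype.card (W k) = 4 * k + 3 := by
  rw [Fintype.card_congr (WEquiv k)]
  simp
  omega

variable {k : ℕ}

lemma adj_A {v : W k} (h : (G k).Adj W.A v) : v = W.C ∨ ∃ j, v = W.a j := by
  rcases h with h | h <;> cases h <;> simp

lemma adj_B {v : W k} (h : (G k).Adj W.B v) : v = W.C ∨ ∃ j, v = W.b j := by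
  rcases h with h | h <;> cases h <;> simp

lemma adj_C {v : W k} (h : (G k).Adj W.C v) : v = W.A ∨ v = W.B := by
  rcases h with h | h <;> cases h <;> simp

lemma adj_a {v : W k} {j : Fin k} (h : (G k).Adj (W.a j) v) :
    v = W.A ∨ v = W.b j ∨ v = W.la j := by
  rcases h with h | h <;> cases h <;> simp

lemma adj_b {v : W k} {j : Fin k} (h : (G k).Adj (W.b j) v) :
    v = W.B ∨ v = W.a j ∨ v = W.lb j := by
  rcases h with h | h <;> cases h <;> simp

lemma adj_la {v : W k} {j : Fin k} (h : (G k).Adj (W.la j) v) : v = W.a j := by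
  rcases h with h | h <;> cases h; rfl

lemma adj_lb {v : W k} {j : Fin k} (h : (G k).Adj (W.lb j) v) : v = W.b j := by
  rcases h with h | h <;> cases h; rfl

/-- The example has no cycle of length `1` modulo `3`. -/
lemma free (k : ℕ) : IsFree I1 (G k) := by
  rintro m ⟨i0, hi0, rfl⟩ hc
  obtain ⟨f, hinj, hadj⟩ := fun_of_contained (by omega) hc
  have h2 : ((2 : ℕ) : ZMod (3 * i0 + 1)) ≠ 0 := natCast_ne_zero (by omega) (by omega)
  have hadj' : ∀ i, (G k).Adj (f (i + 1)) (f i) := fun i => (hadj i).symm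
  have hne2 : ∀ i, f (i + 1 + 1) ≠ f i := by
    intro i h
    have h1 := hinj h
    apply h2
    have : i + 1 + 1 = i + ((2 : ℕ) : ZMod (3 * i0 + 1)) := by push_cast; ring
    rw [this] at h1
    simpa using h1
  have hla : ∀ i j, f (i + 1) ≠ W.la j := by
    intro i j h
    have h3 := hadj' i
    have h4 := hadj (i + 1)
    rw [h] at h3 h4
    exact hne2 i ((adj_la h4).trans (adj_la h3).symm)
  have hlb : ∀ i j, f (i + 1) ≠ W.lb j := by
    intro i j h
    have h3 := hadj' i
    have h4 := hadj (i + 1)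
    rw [h] at h3 h4
    exact hne2 i ((adj_lb h4).trans (adj_lb h3).symm)
  -- steps
  have stepAa : ∀ i j, f i = W.A → f (i + 1) = W.a j → f (i + 1 + 1) = W.b j := by
    intro i j h3 h4
    have h5 := hadj (i + 1)
    rw [h4] at h5
    rcases adj_a h5 with h | h | h
    · exact absurd (h.trans h3.symm) (hne2 i)
    · exact h
    · exact absurd h (hla _ _)
  have stepab : ∀ i j, f i = W.a j → f (i + 1) = W.b j → f (i + 1 + 1) = W.B := by
    intro i j h3 h4
    have h5 := hadj (i + 1)
    rw [h4] at h5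
    rcases adj_b h5 with h | h | h
    · exact h
    · exact absurd (h.trans h3.symm) (hne2 i)
    · exact absurd h (hlb _ _)
  have stepBb : ∀ i j, f i = W.B → f (i + 1) = W.b j → f (i + 1 + 1) = W.a j := by
    intro i j h3 h4
    have h5 := hadj (i + 1)
    rw [h4] at h5
    rcases adj_b h5 with h | h | h
    · exact absurd (h.trans h3.symm) (hne2 i)
    · exact h
    · exact absurd h (hlb _ _)
  have stepba : ∀ i j, f i = W.b j → f (i + 1) = W.a j → f (i + 1 + 1) = W.A := by
    intro i j h3 h4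
    have h5 := hadj (i + 1)
    rw [h4] at h5
    rcases adj_a h5 with h | h | h
    · exact h
    · exact absurd (h.trans h3.symm) (hne2 i)
    · exact absurd h (hla _ _)
  have fromA : ∀ i, f i = W.A → (f (i + 1) = W.C ∧ f (i + 1 + 1) = W.B) ∨
      f (i + 1 + 1 + 1) = W.B := by
    intro i h
    have h5 := hadj i
    rw [h] at h5
    rcases adj_A h5 with h6 | ⟨j, h6⟩
    · left
      refine ⟨h6, ?_⟩
      have h7 := hadj (i + 1)
      rw [h6] at h7
      rcases adj_C h7 with h8 | h8
      · exact absurd (h8.trans h.symm) (hne2 i)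
      · exact h8
    · right
      exact stepab _ j h6 (stepAa i j h h6)
  have fromB : ∀ i, f i = W.B → (f (i + 1) = W.C ∧ f (i + 1 + 1) = W.A) ∨
      f (i + 1 + 1 + 1) = W.A := by
    intro i h
    have h5 := hadj i
    rw [h] at h5
    rcases adj_B h5 with h6 | ⟨j, h6⟩
    · left
      refine ⟨h6, ?_⟩
      have h7 := hadj (i + 1)
      rw [h6] at h7
      rcases adj_C h7 with h8 | h8
      · exact h8
      · exact absurd (h8.trans h.symm) (hne2 i)
    · right
      exact stepba _ j h6 (stepBb i j h h6)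
  -- some vertex of the cycle is `A`
  have exB : ∀ i, f i = W.B → ∃ i, f i = W.A := by
    intro i h
    rcases fromB i h with h | h
    · exact ⟨_, h.2⟩
    · exact ⟨_, h⟩
  obtain ⟨i, hi⟩ : ∃ i, f i = W.A := by
    rcases h : f (0 + 1) with _ | _ | _ | j | j | j | j
    · exact ⟨_, h⟩
    · exact exB _ h
    · have h5 := hadj (0 + 1)
      rw [h] at h5
      rcases adj_C h5 with h6 | h6
      · exact ⟨_, h6⟩
      · exact exB _ h6
    · have h5 := hadj (0 + 1)
      rw [h] at h5
      rcases adj_a h5 with h6 | h6 | h6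
      · exact ⟨_, h6⟩
      · exact exB _ (stepab _ _ h h6)
      · exact absurd h6 (hla _ _)
    · have h5 := hadj (0 + 1)
      rw [h] at h5
      rcases adj_b h5 with h6 | h6 | h6
      · exact exB _ h6
      · exact ⟨_, stepba _ _ h h6⟩
      · exact absurd h6 (hlb _ _)
    · exact absurd h (hla _ _)
    · exact absurd h (hlb _ _)
  have fin5 : ((5 : ℕ) : ZMod (3 * i0 + 1)) ≠ 0 := by
    intro h
    rw [ZMod.natCast_eq_zero_iff] at h
    have h6 := Nat.le_of_dvd (by norm_num) h
    have h7 : i0 = 1 := by omega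
    subst h7
    revert h
    decide
  have fin6 : ((6 : ℕ) : ZMod (3 * i0 + 1)) ≠ 0 := by
    intro h
    rw [ZMod.natCast_eq_zero_iff] at h
    have h6 := Nat.le_of_dvd (by norm_num) h
    have h7 : i0 = 1 := by omega
    subst h7
    revert h
    decide
  rcases fromA i hi with ⟨h3, h4⟩ | h3
  · rcases fromB _ h4 with ⟨h5, h6⟩ | h5
    · exact hne2 (i + 1) (h5.trans h3.symm)
    · have h6 := hinj (h5.trans hi.symm)
      apply fin5
      have : i + 1 + 1 + 1 + 1 + 1 = i + ((5 : ℕ) : ZMod (3 * i0 + 1)) := by push_cast; ring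
      rw [this] at h6
      simpa using h6
  · rcases fromB _ h3 with ⟨h5, h6⟩ | h5
    · have h6 := hinj (h6.trans hi.symm)
      apply fin5
      have : i + 1 + 1 + 1 + 1 + 1 = i + ((5 : ℕ) : ZMod (3 * i0 + 1)) := by push_cast; ring
      rw [this] at h6
      simpa using h6
    · have h6 := hinj (h5.trans hi.symm)
      apply fin6
      have : i + 1 + 1 + 1 + 1 + 1 + 1 = i + ((6 : ℕ) : ZMod (3 * i0 + 1)) := by
        push_cast; ring
      rw [this] at h6
      simpa using h6

section paths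

variable {V : Type} {H : SimpleGraph V}

/-- a good path: length divisible by `3` and positive -/
def Good (H : SimpleGraph V) (x y : V) : Prop :=
  ∃ i : ℕ, 1 ≤ i ∧ PP H (fun _ => True) x y (3 * i)

lemma Good.symm {x y : V} (h : Good H x y) : Good H y x := by
  obtain ⟨i, h1, h2⟩ := h
  exact ⟨i, h1, h2.symm⟩

lemma good3 {a b c d : V} (h1 : H.Adj a b) (h2 : H.Adj b c) (h3 : H.Adj c d)
    (hnd : [a, b, c, d].Nodup) : Good H a d := by
  refine ⟨1, le_rfl, Walk.cons h1 (Walk.cons h2 (Walk.cons h3 Walk.nil)), ?_, by simp,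
    fun _ _ => trivial⟩
  rw [Walk.isPath_def]
  simpa using hnd

lemma good6 {a b c d e f g : V} (h1 : H.Adj a b) (h2 : H.Adj b c) (h3 : H.Adj c d)
    (h4 : H.Adj d e) (h5 : H.Adj e f) (h6 : H.Adj f g)
    (hnd : [a, b, c, d, e, f, g].Nodup) : Good H a g := by
  refine ⟨2, by norm_num, Walk.cons h1 (Walk.cons h2 (Walk.cons h3 (Walk.cons h4 (Walk.cons h5
    (Walk.cons h6 Walk.nil))))), ?_, by simp, fun _ _ => trivial⟩
  rw [Walk.isPath_def]
  simpa using hnd

end paths

lemma exists_third (hk : 3 ≤ k) (i j : Fin k) : ∃ l, l ≠ i ∧ l ≠ j := by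
  by_contra hcon
  push Not at hcon
  have hsub : (Finset.univ : Finset (Fin k)) ⊆ {i, j} := by
    intro l _
    by_cases h : l = i
    · simp [h]
    · simp [hcon l h]
  have h1 := Finset.card_le_card hsub
  have h2 : ({i, j} : Finset (Fin k)).card ≤ 2 := Finset.card_le_two
  rw [Finset.card_univ, Fintype.card_fin] at h1
  omega

-- edges in both directions
lemma eAC : (G k).Adj W.A W.C := Or.inl E.AC
lemma eCA : (G k).Adj W.C W.A := Or.inr E.AC
lemma eBC : (G k).Adj W.B W.C := Or.inl E.BC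
lemma eCB : (G k).Adj W.C W.B := Or.inr E.BC
lemma eAa (j : Fin k) : (G k).Adj W.A (W.a j) := Or.inl (E.Aa j)
lemma eaA (j : Fin k) : (G k).Adj (W.a j) W.A := Or.inr (E.Aa j)
lemma eBb (j : Fin k) : (G k).Adj W.B (W.b j) := Or.inl (E.Bb j)
lemma ebB (j : Fin k) : (G k).Adj (W.b j) W.B := Or.inr (E.Bb j)
lemma eab (j : Fin k) : (G k).Adj (W.a j) (W.b j) := Or.inl (E.ab j)
lemma eba (j : Fin k) : (G k).Adj (W.b j) (W.a j) := Or.inr (E.ab j)
lemma eal (j : Fin k) : (G k).Adj (W.a j) (W.la j) := Or.inl (E.al j)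
lemma ela (j : Fin k) : (G k).Adj (W.la j) (W.a j) := Or.inr (E.al j)
lemma ebl (j : Fin k) : (G k).Adj (W.b j) (W.lb j) := Or.inl (E.bl j)
lemma elb (j : Fin k) : (G k).Adj (W.lb j) (W.b j) := Or.inr (E.bl j)

/-- All nonadjacent pairs are joined by a path of length divisible by three. -/
lemma good_pair (hk : 3 ≤ k) (x y : W k) (hxy : x ≠ y) (hn : ¬ (G k).Adj x y) :
    Good (G k) x y := by
  -- it suffices to treat pairs in the order of the constructors
  have AB : Good (G k) W.A W.B :=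
    good3 (eAa ⟨0, by omega⟩) (eab _) (ebB _) (by simp)
  have Ab : ∀ j, Good (G k) W.A (W.b j) := fun j => good3 eAC eCB (eBb j) (by simp)
  have Ba : ∀ j, Good (G k) W.B (W.a j) := fun j => good3 eBC eCA (eAa j) (by simp)
  have Ala : ∀ j, Good (G k) W.A (W.la j) := by
    intro j
    obtain ⟨i, hi, -⟩ := exists_third hk j j
    exact good6 (eAa i) (eab i) (ebB i) (eBb j) (eba j) (eal j) (by simp [hi])
  have Alb : ∀ j, Good (G k) W.A (W.lb j) := fun j => good3 (eAa j) (eab j) (ebl j) (by simp)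
  have Bla : ∀ j, Good (G k) W.B (W.la j) := fun j => good3 (eBb j) (eba j) (eal j) (by simp)
  have Blb : ∀ j, Good (G k) W.B (W.lb j) := by
    intro j
    obtain ⟨i, hi, -⟩ := exists_third hk j j
    exact good6 (eBb i) (eba i) (eaA i) (eAa j) (eab j) (ebl j) (by simp [hi])
  have Ca : ∀ j, Good (G k) W.C (W.a j) := fun j => good3 eCB (eBb j) (eba j) (by simp)
  have Cb : ∀ j, Good (G k) W.C (W.b j) := fun j => good3 eCA (eAa j) (eab j) (by simp)
  have Cla : ∀ j, Good (G k) W.C (W.la j) := fun j => good3 eCA (eAa j) (eal j) (by simp)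
  have Clb : ∀ j, Good (G k) W.C (W.lb j) := fun j => good3 eCB (eBb j) (ebl j) (by simp)
  have aa : ∀ i j, i ≠ j → Good (G k) (W.a i) (W.a j) := by
    intro i j hij
    obtain ⟨l, h1, h2⟩ := exists_third hk i j
    exact good6 (eab i) (ebB i) (eBb l) (eba l) (eaA l) (eAa j)
      (by simp [hij, h1, h2, hij.symm, h1.symm, h2.symm])
  have ab : ∀ i j, i ≠ j → Good (G k) (W.a i) (W.b j) := fun i j hij =>
    good3 (eaA i) (eAa j) (eab j) (by simp [hij])
  have ala : ∀ i j, i ≠ j → Good (G k) (W.a i) (W.la j) := fun i j hij =>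
    good3 (eaA i) (eAa j) (eal j) (by simp [hij])
  have alb : ∀ i j, Good (G k) (W.a i) (W.lb j) := by
    intro i j
    by_cases hij : i = j
    · subst hij
      obtain ⟨l, h1, -⟩ := exists_third hk i i
      exact good6 (eaA i) (eAa l) (eab l) (ebB l) (eBb i) (ebl i) (by simp [h1, h1.symm])
    · obtain ⟨l, h1, h2⟩ := exists_third hk i j
      exact good6 (eaA i) (eAa l) (eab l) (ebB l) (eBb j) (ebl j)
        (by simp [h1.symm, h2])
  have bb : ∀ i j, i ≠ j → Good (G k) (W.b i) (W.b j) := by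
    intro i j hij
    obtain ⟨l, h1, h2⟩ := exists_third hk i j
    exact good6 (eba i) (eaA i) (eAa l) (eab l) (ebB l) (eBb j)
      (by simp [hij, h1, h2, hij.symm, h1.symm, h2.symm])
  have bla : ∀ i j, Good (G k) (W.b i) (W.la j) := by
    intro i j
    by_cases hij : i = j
    · subst hij
      obtain ⟨l, h1, -⟩ := exists_third hk i i
      exact good6 (ebB i) (eBb l) (eba l) (eaA l) (eAa i) (eal i) (by simp [h1, h1.symm])
    · obtain ⟨l, h1, h2⟩ := exists_third hk i j
      exact good6 (ebB i) (eBb l) (eba l) (eaA l) (eAa j) (eal j)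
        (by simp [h1.symm, h2])
  have blb : ∀ i j, i ≠ j → Good (G k) (W.b i) (W.lb j) := fun i j hij =>
    good3 (ebB i) (eBb j) (ebl j) (by simp [hij])
  have lala : ∀ i j, i ≠ j → Good (G k) (W.la i) (W.la j) := fun i j hij =>
    good6 (ela i) (eab i) (ebB i) (eBb j) (eba j) (eal j) (by simp [hij])
  have lalb : ∀ i j, Good (G k) (W.la i) (W.lb j) := by
    intro i j
    by_cases hij : i = j
    · subst hij
      exact good3 (ela i) (eab i) (ebl i) (by simp)
    · exact good6 (ela i) (eaA i) eAC eCB (eBb j) (ebl j) (by simp)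
  have lblb : ∀ i j, i ≠ j → Good (G k) (W.lb i) (W.lb j) := fun i j hij =>
    good6 (elb i) (eba i) (eaA i) (eAa j) (eab j) (ebl j) (by simp [hij])
  have hne : ∀ {i j : Fin k} {g : Fin k → W k}, g i ≠ g j → i ≠ j := fun h h' => h (h' ▸ rfl)
  rcases x with _ | _ | _ | i | i | i | i <;> rcases y with _ | _ | _ | j | j | j | j
  all_goals first
    | exact absurd rfl hxy
    | exact AB
    | exact AB.symm
    | exact absurd eAC hn
    | exact absurd eCA hn
    | exact absurd eBC hn
    | exact absurd eCB hn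
    | exact absurd (eAa _) hn
    | exact absurd (eaA _) hn
    | exact absurd (eBb _) hn
    | exact absurd (ebB _) hn
    | exact Ab _
    | exact (Ab _).symm
    | exact Ba _
    | exact (Ba _).symm
    | exact Ala _
    | exact (Ala _).symm
    | exact Alb _
    | exact (Alb _).symm
    | exact Bla _
    | exact (Bla _).symm
    | exact Blb _
    | exact (Blb _).symm
    | exact Ca _
    | exact (Ca _).symm
    | exact Cb _
    | exact (Cb _).symm
    | exact Cla _
    | exact (Cla _).symm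
    | exact Clb _
    | exact (Clb _).symm
    | exact alb _ _
    | exact (alb _ _).symm
    | exact bla _ _
    | exact (bla _ _).symm
    | exact lalb _ _
    | exact (lalb _ _).symm
    | exact aa _ _ (fun h => hxy (by rw [h]))
    | exact bb _ _ (fun h => hxy (by rw [h]))
    | exact lala _ _ (fun h => hxy (by rw [h]))
    | exact lblb _ _ (fun h => hxy (by rw [h]))
    | exact ab _ _ (fun h => hn (by rw [h]; exact eab _))
    | exact (ab _ _ (fun h => hn (by rw [h]; exact eba _))).symm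
    | exact ala _ _ (fun h => hn (by rw [h]; exact eal _))
    | exact (ala _ _ (fun h => hn (by rw [h]; exact ela _))).symm
    | exact blb _ _ (fun h => hn (by rw [h]; exact ebl _))
    | exact (blb _ _ (fun h => hn (by rw [h]; exact elb _))).symm

lemma saturated (hk : 3 ≤ k) : IsSaturated I1 (G k) := by
  refine ⟨free k, fun x y hxy hn hfree => ?_⟩
  obtain ⟨i, hi, hp⟩ := good_pair hk x y hxy hn
  exact hfree (3 * i + 1) ⟨i, hi, rfl⟩ (hp.cycle hxy (by omega))

/-- list of the edges -/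
def edgeFun (k : ℕ) : Fin 2 ⊕ (Fin k × Fin 5) → Sym2 (W k)
  | .inl 0 => s(W.A, W.C)
  | .inl 1 => s(W.B, W.C)
  | .inr (j, 0) => s(W.A, W.a j)
  | .inr (j, 1) => s(W.B, W.b j)
  | .inr (j, 2) => s(W.a j, W.b j)
  | .inr (j, 3) => s(W.a j, W.la j)
  | .inr (j, 4) => s(W.b j, W.lb j)

lemma edges (k : ℕ) : (G k).edgeSet.ncard ≤ 5 * k + 2 := by
  have key : ∀ u v : W k, E u v → s(u, v) ∈ Set.range (edgeFun k) := by
    intro u v h
    cases h with
    | AC => exact ⟨.inl 0, rfl⟩
    | BC => exact ⟨.inl 1, rfl⟩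
    | Aa j => exact ⟨.inr (j, 0), rfl⟩
    | Bb j => exact ⟨.inr (j, 1), rfl⟩
    | ab j => exact ⟨.inr (j, 2), rfl⟩
    | al j => exact ⟨.inr (j, 3), rfl⟩
    | bl j => exact ⟨.inr (j, 4), rfl⟩
  have hsub : (G k).edgeSet ⊆ Set.range (edgeFun k) := by
    intro e he
    induction e using Sym2.ind with
    | _ u v =>
    rw [SimpleGraph.mem_edgeSet] at he
    rcases he with he | he
    · exact key u v he
    · rw [Sym2.eq_swap]
      exact key v u he
  calc (G k).edgeSet.ncard ≤ (Set.range (edgeFun k)).ncard :=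
        Set.ncard_le_ncard hsub (Set.toFinite _)
    _ ≤ Nat.card (Fin 2 ⊕ (Fin k × Fin 5)) := by
        rw [← Nat.card_coe_set_eq]
        exact Finite.card_range_le _
    _ = 5 * k + 2 := by simp; ring

lemma sat_le (hk : 3 ≤ k) : sat (4 * k + 3) I1 ≤ 5 * k + 2 := by
  have h : sat (4 * k + 3) I1 ≤ (G k).edgeSet.ncard :=
    Nat.sInf_le ⟨W k, inferInstance, G k, card_W k, saturated hk, rfl⟩
  exact h.trans (edges k)

/-- **Main result.** For every `k ≥ 3` and `n = 4k + 3` we have
`sat(n, C_{3ℤ₊+1}) ≤ 5k + 2 < ⌈5n/4 - 3/2⌉`; in particular (`n = 15`) the assertion of the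
problem is false. -/
theorem result :
    (∀ k : ℕ, 3 ≤ k → sat (4 * k + 3) I1 ≤ 5 * k + 2 ∧
      (sat (4 * k + 3) I1 : ℤ) < ⌈5 * ((4 * k + 3 : ℕ) : ℚ) / 4 - 3 / 2⌉) ∧
    ¬ ∀ n : ℕ, 1 ≤ n → (sat n I1 : ℤ) = ⌈5 * (n : ℚ) / 4 - 3 / 2⌉ := by
  have main : ∀ k : ℕ, 3 ≤ k → sat (4 * k + 3) I1 ≤ 5 * k + 2 ∧
      (sat (4 * k + 3) I1 : ℤ) < ⌈5 * ((4 * k + 3 : ℕ) : ℚ) / 4 - 3 / 2⌉ := by
    intro k hk
    have h1 := sat_le hk
    refine ⟨h1, ?_⟩
    have h2 : (sat (4 * k + 3) I1 : ℤ) ≤ 5 * k + 2 := by exact_mod_cast h1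
    refine lt_of_le_of_lt h2 ?_
    rw [Int.lt_ceil]
    push_cast
    linarith
  refine ⟨main, fun h => ?_⟩
  have h1 := (main 3 le_rfl).2
  have h2 := h (4 * 3 + 3) (by norm_num)
  rw [h2] at h1
  exact lt_irrefl _ h1

end Pool.Agent.Results.MP_df7c80_co.Counterexample
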